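import Mathlib

/-!
# Saturation functions with a fixed number of rows after inserting empty rows

`P` is the permutation matrix `2413`. For `m ≥ 6` rows it has a saturated matrix with all its ones in four
columns. After inserting `m - 4` empty rows between the first two rows, the rows `2, …, m - 3` of an
`m × n` matrix take no part in any copy, so they are full in every saturated matrix.
-/

set_option autoImplicit false

namespace Pool.Agent.Results.MP_db54ba57_co.FixedRows

open Finset

/-- `M` contains the pattern `P`: some rows and columns, in increasing order, carry ones of `M` at all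
the places where `P` has a one. -/
def Contains {m n k l : ℕ} (M : Fin m → Fin n → Bool) (P : Fin k → Fin l → Bool) : Prop :=
  ∃ (f : Fin k → Fin m) (g : Fin l → Fin n), StrictMono f ∧ StrictMono g ∧
    ∀ a b, P a b = true → M (f a) (g b) = true

/-- The matrix `M` with the entry `(i, j)` changed to `1`. -/
def put {m n : ℕ} (M : Fin m → Fin n → Bool) (i : Fin m) (j : Fin n) : Fin m → Fin n → Bool :=
  fun a b => if a = i ∧ b = j then true else M a b

/-- `M` is `P`-saturated. -/
def Saturated {m n k l : ℕ} (M : Fin m → Fin n → Bool) (P : Fin k → Fin l → Bool) : Prop :=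
  ¬ Contains M P ∧ ∀ i j, M i j = false → Contains (put M i j) P

/-- The number of ones. -/
def weight {m n : ℕ} (M : Fin m → Fin n → Bool) : ℕ :=
  (univ.filter fun x : Fin m × Fin n => M x.1 x.2 = true).card

/-- The saturation function: the least weight of an `m × n` `P`-saturated matrix. -/
noncomputable def sat {k l : ℕ} (m n : ℕ) (P : Fin k → Fin l → Bool) : ℕ :=
  sInf {w : ℕ | ∃ M : Fin m → Fin n → Bool, Saturated M P ∧ weight M = w}

/-- `P'` is obtained from `P` by inserting interior empty rows and columns: rows (columns) of `P` go to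
rows (columns) of `P'` in increasing order, the first to the first and the last to the last, and all
other rows and columns of `P'` are empty. -/
def InteriorInsertion {k l k' l' : ℕ} (P : Fin k → Fin l → Bool) (P' : Fin k' → Fin l' → Bool) :
    Prop :=
  ∃ (f : Fin k → Fin k') (g : Fin l → Fin l'), StrictMono f ∧ StrictMono g ∧
    (∀ a : Fin k, (a : ℕ) = 0 → (f a : ℕ) = 0) ∧
    (∀ a : Fin k, (a : ℕ) + 1 = k → (f a : ℕ) + 1 = k') ∧
    (∀ b : Fin l, (b : ℕ) = 0 → (g b : ℕ) = 0) ∧
    (∀ b : Fin l, (b : ℕ) + 1 = l → (g b : ℕ) + 1 = l') ∧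
    (∀ a b, P' (f a) (g b) = P a b) ∧
    (∀ i j, P' i j = true → (∃ a, f a = i) ∧ (∃ b, g b = j))

/-! ### General facts -/

theorem contains_mono {m n k l : ℕ} {M M' : Fin m → Fin n → Bool} {P : Fin k → Fin l → Bool}
    (h : ∀ i j, M i j = true → M' i j = true) (hc : Contains M P) : Contains M' P := by
  obtain ⟨f, g, hf, hg, hP⟩ := hc
  exact ⟨f, g, hf, hg, fun a b hab => h _ _ (hP a b hab)⟩

/-- Every matrix avoiding `P` extends to a saturated one. -/
theorem exists_saturated {m n k l : ℕ} (P : Fin k → Fin l → Bool) (M : Fin m → Fin n → Bool)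
    (hM : ¬ Contains M P) : ∃ M' : Fin m → Fin n → Bool, Saturated M' P ∧
      ∀ i j, M i j = true → M' i j = true := by
  classical
  -- take an avoiding matrix above `M` of the largest weight
  have hfin : ∃ M' : Fin m → Fin n → Bool, (¬ Contains M' P ∧ ∀ i j, M i j = true → M' i j = true) ∧
      ∀ M'' : Fin m → Fin n → Bool, (¬ Contains M'' P ∧ ∀ i j, M i j = true → M'' i j = true) →
        weight M'' ≤ weight M' := by
    obtain ⟨M', hM', hmax⟩ := Finset.exists_max_image
      (univ.filter fun M' : Fin m → Fin n → Bool =>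
        ¬ Contains M' P ∧ ∀ i j, M i j = true → M' i j = true) weight
      ⟨M, by simp [hM]⟩
    refine ⟨M', (Finset.mem_filter.1 hM').2, fun M'' h => hmax M'' ?_⟩
    exact Finset.mem_filter.2 ⟨Finset.mem_univ _, h⟩
  obtain ⟨M', ⟨hav, hle⟩, hmax⟩ := hfin
  refine ⟨M', ⟨hav, fun i j hij => ?_⟩, hle⟩
  by_contra hcon
  have h1 := hmax (put M' i j) ⟨hcon, fun a b hab => by
    unfold put; split_ifs
    · rfl
    · exact hle a b hab⟩
  have h2 : weight M' < weight (put M' i j) := by
    unfold weight
    apply Finset.card_lt_card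
    rw [Finset.ssubset_iff_of_subset]
    · refine ⟨(i, j), ?_, ?_⟩
      · simp [put]
      · simp [hij]
    · intro x hx
      rw [Finset.mem_filter] at hx ⊢
      refine ⟨Finset.mem_univ _, ?_⟩
      unfold put; split_ifs
      · rfl
      · exact hx.2
  omega

theorem sat_le {m n k l : ℕ} (P : Fin k → Fin l → Bool) (M : Fin m → Fin n → Bool)
    (hM : Saturated M P) : sat m n P ≤ weight M := Nat.sInf_le ⟨M, hM, rfl⟩

theorem le_sat {m n k l : ℕ} (P : Fin k → Fin l → Bool) (w : ℕ)
    (h : ∀ M : Fin m → Fin n → Bool, Saturated M P → w ≤ weight M)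
    (hne : ∃ M : Fin m → Fin n → Bool, Saturated M P) : w ≤ sat m n P := by
  unfold sat
  apply le_csInf
  · obtain ⟨M, hM⟩ := hne
    exact ⟨_, M, hM, rfl⟩
  · rintro v ⟨M, hM, rfl⟩
    exact h M hM

/-! ### The pattern `2413` -/

/-- The permutation matrix `2413`: the ones of the columns `0, 1, 2, 3` are in the rows `1, 3, 0, 2`. -/
def P : Fin 4 → Fin 4 → Bool := fun a b => decide (a = ![1, 3, 0, 2] b)

/-- The pattern with `t` empty rows inserted between the first two rows. -/
def P' (t : ℕ) : Fin (4 + t) → Fin 4 → Bool := fun i b =>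
  decide ((i : ℕ) = ![1 + t, 3 + t, 0, 2 + t] b)

theorem P'_insertion (t : ℕ) : InteriorInsertion P (P' t) := by
  refine ⟨fun a => ⟨if (a : ℕ) = 0 then 0 else (a : ℕ) + t, by split_ifs <;> omega⟩, id, ?_,
    strictMono_id, ?_, ?_, ?_, ?_, ?_, ?_⟩
  · intro a b hab
    have hab' : (a : ℕ) < b := hab
    rw [Fin.lt_def]
    simp only
    split_ifs <;> omega
  · intro a ha; simp [ha]
  · intro a ha
    simp only
    rw [if_neg (by omega)]; omega
  · intro b hb; exact hb
  · intro b hb; exact hb
  · intro a b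
    unfold P P'
    fin_cases a <;> fin_cases b <;> simp <;> omega
  · intro i b h
    refine ⟨?_, b, rfl⟩
    unfold P' at h
    rw [decide_eq_true_iff] at h
    fin_cases b
    · exact ⟨1, Fin.ext (by simp at h ⊢; omega)⟩
    · exact ⟨3, Fin.ext (by simp at h ⊢; omega)⟩
    · have h0 : (i : ℕ) = 0 := by simpa using h
      exact ⟨0, Fin.ext (by rw [h0]; rfl)⟩
    · exact ⟨2, Fin.ext (by simp at h ⊢; omega)⟩

/-- The starting matrix: columns `0, 1` and the last two columns carry the ones
`3; 1, 5; 0, 4; 2`. -/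
def W (m n : ℕ) : Fin m → Fin n → Bool := fun i j =>
  decide (((j : ℕ) = 0 ∧ (i : ℕ) = 3) ∨ ((j : ℕ) = 1 ∧ ((i : ℕ) = 1 ∨ (i : ℕ) = 5)) ∨
    ((j : ℕ) + 2 = n ∧ ((i : ℕ) = 0 ∨ (i : ℕ) = 4)) ∨ ((j : ℕ) + 1 = n ∧ (i : ℕ) = 2))

theorem W_avoids (m n : ℕ) (hn : 5 ≤ n) : ¬ Contains (W m n) P := by
  rintro ⟨f, g, hf, hg, h⟩
  have f01 : (f 0 : ℕ) < f 1 := hf (by decide)
  have f12 : (f 1 : ℕ) < f 2 := hf (by decide)
  have f23 : (f 2 : ℕ) < f 3 := hf (by decide)
  have g01 : (g 0 : ℕ) < g 1 := hg (by decide)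
  have g12 : (g 1 : ℕ) < g 2 := hg (by decide)
  have g23 : (g 2 : ℕ) < g 3 := hg (by decide)
  have g3n := (g 3).isLt
  have h0 := h 1 0 (by decide)
  have h1 := h 3 1 (by decide)
  have h2 := h 0 2 (by decide)
  have h3 := h 2 3 (by decide)
  unfold W at h0 h1 h2 h3
  rw [decide_eq_true_iff] at h0 h1 h2 h3
  omega

/-- A one in any column strictly between the four columns completes a copy. -/
theorem W_put (m n : ℕ) (hm : 6 ≤ m) (hn : 5 ≤ n) (i : Fin m) (j : Fin n)
    (hj1 : 2 ≤ (j : ℕ)) (hj2 : (j : ℕ) + 3 ≤ n) : Contains (put (W m n) i j) P := by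
  by_cases hi : (i : ℕ) ≤ 2
  · refine ⟨![i, ⟨3, by omega⟩, ⟨4, by omega⟩, ⟨5, by omega⟩],
      ![⟨0, by omega⟩, ⟨1, by omega⟩, j, ⟨n - 2, by omega⟩], ?_, ?_, ?_⟩
    · rw [Fin.strictMono_iff_lt_succ]
      intro a
      fin_cases a <;> simp [Fin.lt_def] <;> omega
    · rw [Fin.strictMono_iff_lt_succ]
      intro a
      fin_cases a <;> simp [Fin.lt_def] <;> omega
    · intro a b hab
      fin_cases b <;> fin_cases a <;> simp [P] at hab <;> simp [put, W] <;> omega
  · refine ⟨![⟨0, by omega⟩, ⟨1, by omega⟩, ⟨2, by omega⟩, i],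
      ![⟨1, by omega⟩, j, ⟨n - 2, by omega⟩, ⟨n - 1, by omega⟩], ?_, ?_, ?_⟩
    · rw [Fin.strictMono_iff_lt_succ]
      intro a
      fin_cases a <;> simp [Fin.lt_def] <;> omega
    · rw [Fin.strictMono_iff_lt_succ]
      intro a
      fin_cases a <;> simp [Fin.lt_def] <;> omega
    · intro a b hab
      fin_cases b <;> fin_cases a <;> simp [P] at hab <;> simp [put, W] <;> omega

theorem sat_P_le (m n : ℕ) (hm : 6 ≤ m) (hn : 5 ≤ n) : sat m n P ≤ 4 * m := by
  obtain ⟨M, hM, hWM⟩ := exists_saturated P (W m n) (W_avoids m n hn)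
  refine (sat_le P M hM).trans ?_
  -- all ones of `M` are in the four columns
  have hcol : ∀ i j, M i j = true → (j : ℕ) = 0 ∨ (j : ℕ) = 1 ∨ (j : ℕ) + 2 = n ∨ (j : ℕ) + 1 = n := by
    intro i j hij
    by_contra hcon
    push Not at hcon
    obtain ⟨c1, c2, c3, c4⟩ := hcon
    have hjn := j.isLt
    apply hM.1
    apply contains_mono _ (W_put m n hm hn i j (by omega) (by omega))
    intro a b hab
    unfold put at hab
    split_ifs at hab with hc
    · rw [hc.1, hc.2]; exact hij
    · exact hWM a b hab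
  unfold weight
  calc (univ.filter fun x : Fin m × Fin n => M x.1 x.2 = true).card
      ≤ ((univ : Finset (Fin m)) ×ˢ ({⟨0, by omega⟩, ⟨1, by omega⟩, ⟨n - 2, by omega⟩,
          ⟨n - 1, by omega⟩} : Finset (Fin n))).card := by
        apply Finset.card_le_card
        rintro ⟨i, j⟩ hx
        rw [Finset.mem_filter] at hx
        rw [Finset.mem_product]
        refine ⟨Finset.mem_univ _, ?_⟩
        simp only [Finset.mem_insert, Finset.mem_singleton, Fin.ext_iff]
        have := hcol i j hx.2
        have hjn := j.isLt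
        omega
    _ ≤ m * 4 := by
        rw [Finset.card_product, Finset.card_univ, Fintype.card_fin]
        exact Nat.mul_le_mul le_rfl Finset.card_le_four
    _ = 4 * m := by ring

/-- In an `m`-row matrix, `m ≤ 2 t + 3`, the rows `m - t - 3, …, t` take no part in any copy of `P' t`. -/
theorem le_sat_P' (m t n : ℕ) (hm : 4 + t ≤ m) : (2 * t + 4 - m) * n ≤ sat m n (P' t) := by
  apply le_sat
  · intro M hM
    have hfull : ∀ (i : Fin m) (j : Fin n), m ≤ (i : ℕ) + t + 3 → (i : ℕ) ≤ t → M i j = true := by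
      intro i j h1 h2
      by_contra hcon
      rw [Bool.not_eq_true] at hcon
      apply hM.1
      obtain ⟨f, g, hf, hg, h⟩ := hM.2 i j hcon
      -- the position of row `a` of a copy
      have hlow : ∀ (x : ℕ) (hx : x < 4 + t), x ≤ (f ⟨x, hx⟩ : ℕ) := by
        intro x
        induction x with
        | zero => intro hx; omega
        | succ x ih =>
          intro hx
          have h3 := ih (by omega)
          have h4 : (f ⟨x, by omega⟩ : ℕ) < f ⟨x + 1, hx⟩ := hf (by rw [Fin.lt_def]; simp)
          omega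
      have hupp : ∀ (y x : ℕ) (hx : x < 4 + t), x + y + 1 = 4 + t →
          (f ⟨x, hx⟩ : ℕ) + y + 1 ≤ m := by
        intro y
        induction y with
        | zero => intro x hx _; have := (f ⟨x, hx⟩).isLt; omega
        | succ y ih =>
          intro x hx hxy
          have h3 := ih (x + 1) (by omega) (by omega)
          have h4 : (f ⟨x, hx⟩ : ℕ) < f ⟨x + 1, by omega⟩ := hf (by rw [Fin.lt_def]; simp)
          omega
      refine ⟨f, g, hf, hg, fun a b hab => ?_⟩
      have h3 := h a b hab
      unfold put at h3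
      split_ifs at h3 with hc
      · exfalso
        have ha : (f a : ℕ) = i := by rw [hc.1]
        have hl := hlow a a.isLt
        have hu := hupp (3 + t - a) a a.isLt (by have := a.isLt; omega)
        have ha' : (⟨(a : ℕ), a.isLt⟩ : Fin (4 + t)) = a := rfl
        rw [ha'] at hl hu
        have hacc : (a : ℕ) = ![1 + t, 3 + t, 0, 2 + t] b := by
          unfold P' at hab
          rwa [decide_eq_true_iff] at hab
        have hb : (a : ℕ) = 0 ∨ 1 + t ≤ (a : ℕ) := by
          rw [hacc]
          fin_cases b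
          · right; simp
          · right; simp
          · left; rfl
          · right; simp
        have := a.isLt
        omega
      · exact h3
    unfold weight
    calc (2 * t + 4 - m) * n = ((univ.filter fun i : Fin m => m ≤ (i : ℕ) + t + 3 ∧ (i : ℕ) ≤ t) ×ˢ
          (univ : Finset (Fin n))).card := by
          rw [Finset.card_product, Finset.card_univ, Fintype.card_fin]
          congr 1
          have : (univ.filter fun i : Fin m => m ≤ (i : ℕ) + t + 3 ∧ (i : ℕ) ≤ t).card
              = (Finset.Icc (m - (t + 3)) t).card := by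
            apply Finset.card_bij (fun (i : Fin m) _ => (i : ℕ))
            · intro i hi
              rw [Finset.mem_filter] at hi
              rw [Finset.mem_Icc]
              omega
            · intro i _ j _ h; exact Fin.ext h
            · intro x hx
              rw [Finset.mem_Icc] at hx
              exact ⟨⟨x, by omega⟩, Finset.mem_filter.2
                ⟨Finset.mem_univ _, by constructor <;> simp <;> omega⟩, rfl⟩
          rw [this, Nat.card_Icc]; omega
      _ ≤ _ := by
          apply Finset.card_le_card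
          rintro ⟨i, j⟩ hx
          rw [Finset.mem_product, Finset.mem_filter] at hx
          rw [Finset.mem_filter]
          exact ⟨Finset.mem_univ _, hfull i j hx.1.2.1 hx.1.2.2⟩
  · have h0 : ¬ Contains (fun (_ : Fin m) (_ : Fin n) => false) (P' t) := by
      rintro ⟨f, g, _, _, h⟩
      have := h ⟨0, by omega⟩ 2 (by simp [P'])
      simp at this
    obtain ⟨M, hM, _⟩ := exists_saturated (P' t) _ h0
    exact ⟨M, hM⟩

/-- Let `P` be the permutation matrix `2413` and let `P' t` be `P` with `t` empty rows inserted between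
its first two rows (so `P' t` has `t + 4` rows). For every number of rows `m` with `6 ≤ m` and
`t + 4 ≤ m ≤ 2 t + 3`, `sat(m, n, P) ≤ 4 m` for all `n ≥ 5` while `sat(m, n, P' t) ≥ (2 t + 4 - m) n` for
all `n`; so `sat(m, n, P' t)` is not `O(sat(m, n, P))`. -/
theorem result (m t : ℕ) (hm : 6 ≤ m) (h1 : t + 4 ≤ m) (h2 : m ≤ 2 * t + 3) :
    InteriorInsertion P (P' t) ∧
    (∀ n, 5 ≤ n → sat m n P ≤ 4 * m) ∧ (∀ n, (2 * t + 4 - m) * n ≤ sat m n (P' t)) ∧
    ¬ ∃ C : ℕ, ∀ n, 5 ≤ n → sat m n (P' t) ≤ C * sat m n P := by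
  refine ⟨P'_insertion t, fun n hn => sat_P_le _ n hm hn, fun n => le_sat_P' m t n (by omega), ?_⟩
  rintro ⟨C, hC⟩
  have h3 := hC (C * (4 * m) + 5) (by omega)
  have h4 := sat_P_le m (C * (4 * m) + 5) hm (by omega)
  have h5 := le_sat_P' m t (C * (4 * m) + 5) (by omega)
  have h6 : C * sat m (C * (4 * m) + 5) P ≤ C * (4 * m) := Nat.mul_le_mul le_rfl h4
  have h7 : 1 * (C * (4 * m) + 5) ≤ (2 * t + 4 - m) * (C * (4 * m) + 5) :=
    Nat.mul_le_mul (by omega) le_rfl
  omega

end Pool.Agent.Results.MP_db54ba57_co.FixedRows
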